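import Mathlib
import Pool.Agent.L7h19.RP.Stm6
import Pool.Agent.L7h19.RP.Exp

/-!
# Project RP (helper19, MP_157626_nt): the sum over unlinked free variables (helper23)
-/

set_option autoImplicit false
set_option linter.unusedVariables false

namespace Pool.Agent.L7h23.RP

open Finset Pool.Agent.W262.RK Pool.Agent.L7h19.RP Pool.Agent.W762.RK2
open Pool.Agent.W108.RK (mem_Tup Jr_one_left)
open Pool.Agent.L7h19.RP.AT (gm hq Bd HH)

section product

variable {ι : Type} [Fintype ι] [DecidableEq ι] {z y : ℕ}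

lemma sum_Tup_prod (f : ι → ℕ → ℝ) :
    ∑ d ∈ Tup ι z y, ∏ i, gm (f i) (d i) = ∏ p ∈ PS z y, (1 + ∑ i, f i p) := by
  rw [sum_Tup]
  have h1 : ∀ l : Pr z y → Option ι, ∏ i, gm (f i) (Dl l i) =
      ∏ p : Pr z y, (l p).elim 1 fun i => f i p := fun l => prod_gm f l
  rw [Finset.sum_congr rfl fun l _ => h1 l]
  rw [← Finset.prod_coe_sort (PS z y) (fun p => 1 + ∑ i, f i p)]
  have h2 : ∀ p : Pr z y, (1 + ∑ i, f i (p : ℕ)) = ∑ x : Option ι, x.elim 1 fun i => f i (p : ℕ) := by
    intro p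
    rw [Fintype.sum_option]
    rfl
  rw [Finset.prod_congr rfl fun p _ => h2 p, Finset.prod_univ_sum, Fintype.piFinset_univ]

open Classical in
/-- the sum over the free variables of a multiplicative function is a product over the primes -/
lemma free_prod (hz : 2 ≤ z) (f : ι → ℕ → ℝ) (F : Finset ι) (e : ι → ℕ)
    (he : ∀ k, e k ∈ (PP z y).divisors) (he1 : ∀ k ∈ F, e k = 1)
    (hc : ∀ k l, k ≠ l → (e k).Coprime (e l)) :
    ∑ d ∈ (Fintype.piFinset (fun k => if k ∈ F then (PP z y).divisors else {e k})).filter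
        (fun d => ∀ i j, i ≠ j → (d i).Coprime (d j)), ∏ i ∈ F, gm (f i) (d i) =
      ∏ p ∈ PS z y, (1 + ∑ i, if i ∈ F ∧ ¬ p ∣ ∏ k, e k then f i p else 0) := by
  have h0 := sum_Tup_prod (z := z) (y := y)
    (fun i p => if i ∈ F ∧ ¬ p ∣ ∏ k, e k then f i p else 0)
  rw [← h0]
  set S2 := (Tup ι z y).filter
    (fun d => (∀ i, i ∉ F → d i = 1) ∧ ∀ i ∈ F, (d i).Coprime (∏ k, e k)) with hS2
  have hpd : ∀ {d : ι → ℕ} (i : ι) (p : ℕ), d ∈ Tup ι z y → p ∈ (d i).primeFactors →
      p ∈ PS z y := by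
    intro d i p hd hp
    have h1 := (mem_Tup.1 hd).1 i
    exact (prime_dvd_PP (Nat.prime_of_mem_primeFactors hp)).1
      ((Nat.dvd_of_mem_primeFactors hp).trans h1)
  have h1 : ∑ d ∈ Tup ι z y, ∏ i, gm (fun p => if i ∈ F ∧ ¬ p ∣ ∏ k, e k then f i p else 0) (d i) =
      ∑ d ∈ S2, ∏ i, gm (fun p => if i ∈ F ∧ ¬ p ∣ ∏ k, e k then f i p else 0) (d i) := by
    symm
    apply Finset.sum_subset (Finset.filter_subset _ _)
    intro d hd hd2
    rw [Finset.mem_filter, not_and, not_and_or] at hd2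
    have hd3 := hd2 hd
    have hne : ∀ i, d i ≠ 0 := fun i => (Pool.Agent.W108.RK.sqf_of_mem hd i).ne_zero
    rcases hd3 with h | h
    · push Not at h
      obtain ⟨i, hi, hdi⟩ := h
      apply Finset.prod_eq_zero (Finset.mem_univ i)
      obtain ⟨p, hp, hpd⟩ := Nat.exists_prime_and_dvd hdi
      unfold AT.gm
      apply Finset.prod_eq_zero (Nat.mem_primeFactors.2 ⟨hp, hpd, hne i⟩)
      rw [if_neg (fun h => hi h.1)]
    · push Not at h
      obtain ⟨i, hi, hdi⟩ := h
      apply Finset.prod_eq_zero (Finset.mem_univ i)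
      obtain ⟨p, hp, hpd, hpe⟩ := Nat.Prime.not_coprime_iff_dvd.1 hdi
      unfold AT.gm
      apply Finset.prod_eq_zero (Nat.mem_primeFactors.2 ⟨hp, hpd, hne i⟩)
      rw [if_neg (fun h => h.2 hpe)]
  rw [h1]
  refine Finset.sum_bij' (fun d _ => fun k => if k ∈ F then d k else 1)
    (fun d _ => fun k => if k ∈ F then d k else e k) ?_ ?_ ?_ ?_ ?_
  · intro d hd
    rw [Finset.mem_filter, Fintype.mem_piFinset] at hd
    rw [hS2, Finset.mem_filter, mem_Tup]
    refine ⟨⟨?_, ?_⟩, ?_, ?_⟩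
    · intro i
      by_cases hi : i ∈ F
      · have := hd.1 i
        rw [if_pos hi] at this
        simp only [if_pos hi]
        exact Nat.dvd_of_mem_divisors this
      · simp only [if_neg hi]
        exact one_dvd _
    · intro i j hij
      by_cases hi : i ∈ F
      · by_cases hj : j ∈ F
        · simp only [if_pos hi, if_pos hj]
          exact hd.2 i j hij
        · simp only [if_neg hj]
          exact Nat.coprime_one_right _
      · simp only [if_neg hi]
        exact Nat.coprime_one_left _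
    · intro i hi
      simp only [if_neg hi]
    · intro i hi
      simp only [if_pos hi]
      rw [Nat.coprime_prod_right_iff]
      intro k _
      by_cases hk : k ∈ F
      · rw [he1 k hk]
        exact Nat.coprime_one_right _
      · have h2 := hd.1 k
        rw [if_neg hk, Finset.mem_singleton] at h2
        rw [← h2]
        refine hd.2 i k ?_
        rintro rfl
        exact hk hi
  · intro d hd
    rw [hS2, Finset.mem_filter, mem_Tup] at hd
    obtain ⟨⟨hd1, hd2⟩, hd3, hd4⟩ := hd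
    rw [Finset.mem_filter, Fintype.mem_piFinset]
    refine ⟨?_, ?_⟩
    · intro k
      by_cases hk : k ∈ F
      · simp only [if_pos hk]
        exact Nat.mem_divisors.2 ⟨hd1 k, PP_ne_zero _ _⟩
      · simp only [if_neg hk, Finset.mem_singleton]
    · intro i j hij
      by_cases hi : i ∈ F
      · by_cases hj : j ∈ F
        · simp only [if_pos hi, if_pos hj]
          exact hd2 i j hij
        · simp only [if_pos hi, if_neg hj]
          exact Nat.Coprime.coprime_dvd_right (Finset.dvd_prod_of_mem e (Finset.mem_univ j))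
            (hd4 i hi)
      · by_cases hj : j ∈ F
        · simp only [if_neg hi, if_pos hj]
          exact (Nat.Coprime.coprime_dvd_right (Finset.dvd_prod_of_mem e (Finset.mem_univ i))
            (hd4 j hj)).symm
        · simp only [if_neg hi, if_neg hj]
          exact hc i j hij
  · intro d hd
    rw [Finset.mem_filter, Fintype.mem_piFinset] at hd
    funext k
    by_cases hk : k ∈ F
    · simp only [if_pos hk]
    · simp only [if_neg hk]
      have h2 := hd.1 k
      rw [if_neg hk, Finset.mem_singleton] at h2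
      exact h2.symm
  · intro d hd
    rw [hS2, Finset.mem_filter] at hd
    funext k
    by_cases hk : k ∈ F
    · simp only [if_pos hk]
    · simp only [if_neg hk]
      exact (hd.2.1 k hk).symm
  · intro d hd
    rw [Finset.mem_filter, Fintype.mem_piFinset] at hd
    rw [← Finset.prod_subset (Finset.subset_univ F)]
    · apply Finset.prod_congr rfl
      intro i hi
      simp only [if_pos hi]
      unfold AT.gm
      apply Finset.prod_congr rfl
      intro p hp
      beta_reduce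
      rw [if_pos]
      refine ⟨hi, fun hpe => ?_⟩
      have hpp := Nat.prime_of_mem_primeFactors hp
      obtain ⟨k, _, hk⟩ := (hpp.prime.dvd_finsetProd_iff _).1 hpe
      have hkF : k ∉ F := by
        intro hk'
        rw [he1 k hk'] at hk
        exact hpp.one_lt.ne' (Nat.dvd_one.1 hk)
      have h2 := hd.1 k
      rw [if_neg hkF, Finset.mem_singleton] at h2
      have h3 : (d i).Coprime (d k) := hd.2 i k (by rintro rfl; exact hkF hi)
      rw [h2] at h3
      have h4 := Nat.dvd_gcd (Nat.dvd_of_mem_primeFactors hp) hk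
      rw [h3] at h4
      exact hpp.one_lt.ne' (Nat.dvd_one.1 h4)
    · intro i _ hi
      simp only [if_neg hi]
      simp [AT.gm]

end product

section signs

variable {ι : Type} [Fintype ι] [DecidableEq ι]

/-- the class modulo `4` -/
def cl (n : ℕ) : Bool := decide (n % 4 = 3)

/-- the sign -/
def ch (a b : Bool) : ℝ := if a = true ∧ b = true then -1 else 1

lemma abs_ch (a b : Bool) : |ch a b| ≤ 1 := by
  unfold ch
  split_ifs <;> simp

lemma x4_ch (s : Bool) {m : ℕ} (hm : Odd m) : x4 s m = ch s (cl m) := by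
  unfold x4 ch cl
  rcases Nat.odd_mod_four_iff.1 (Nat.odd_iff.1 hm) with h | h
  · rw [ZMod.χ₄_nat_one_mod_four h]
    cases s <;> simp [h]
  · rw [ZMod.χ₄_nat_three_mod_four h]
    cases s <;> simp [h]

omit [Fintype ι] in
lemma sign_fun (L : ι → ι → Bool) (hL : ∀ i, L i i = false) (F : Finset ι)
    (hF : ∀ i ∈ F, ∀ j ∈ F, L i j = L j i) :
    ∃ R : (ι → Bool) → ℝ, (∀ c, |R c| ≤ 1) ∧ ∀ d : ι → ℕ, (∀ i, Odd (d i)) →
      (∀ i j, i ≠ j → (d i).Coprime (d j)) →
      ∏ a ∈ F, ∏ b ∈ F, (if L a b then Jr (d a) (d b) else 1) = R fun i => cl (d i) := by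
  induction F using Finset.induction_on with
  | empty =>
    refine ⟨fun _ => 1, fun _ => by simp, fun d _ _ => ?_⟩
    simp
  | insert a s ha ih =>
    obtain ⟨R, hR1, hR2⟩ := ih fun i hi j hj =>
      hF i (Finset.mem_insert_of_mem hi) j (Finset.mem_insert_of_mem hj)
    refine ⟨fun c => (∏ b ∈ s, if L a b then ch (c a) (c b) else 1) * R c, ?_, ?_⟩
    · intro c
      rw [abs_mul]
      refine mul_le_one₀ ?_ (abs_nonneg _) (hR1 c)
      apply abs_prod_le_one
      intro b _
      split_ifs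
      · exact abs_ch _ _
      · simp
    · intro d hd hco
      rw [Finset.prod_insert ha]
      rw [Finset.prod_insert ha]
      rw [Finset.prod_congr rfl fun x (_ : x ∈ s) => Finset.prod_insert ha]
      rw [Finset.prod_mul_distrib, hR2 d hd hco, hL a]
      simp only [Bool.false_eq_true, if_false, one_mul]
      rw [← mul_assoc, ← Finset.prod_mul_distrib]
      congr 1
      apply Finset.prod_congr rfl
      intro b hb
      have hab : a ≠ b := by rintro rfl; exact ha hb
      have hs := hF a (Finset.mem_insert_self a s) b (Finset.mem_insert_of_mem hb)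
      rw [← hs]
      by_cases hLab : L a b = true
      · rw [if_pos hLab, if_pos hLab, if_pos hLab, recip (hd a) (hd b)]
        have h1 := Jr_sq (hco b a hab.symm)
        have h2 := x4_ch (cl (d a)) (hd b)
        have h3 : x4 (decide (d a % 4 = 3)) (d b) = ch (cl (d a)) (cl (d b)) := h2
        rw [h3]
        linear_combination (ch (cl (d a)) (cl (d b))) * h1
      · rw [if_neg hLab, if_neg hLab, if_neg hLab, mul_one]

/-- Fourier expansion of a function of the classes -/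
lemma fourier (R : (ι → Bool) → ℝ) (d : ι → ℕ) (hd : ∀ i, Odd (d i)) :
    R (fun i => cl (d i)) = ∑ c : ι → Bool, ∑ s : ι → Bool,
      (R c * ∏ i, (1 / 2 * ch (c i) (s i))) * ∏ i, x4 (s i) (d i) := by
  have h1 : ∀ c : ι → Bool, ∑ s : ι → Bool, (R c * ∏ i, (1 / 2 * ch (c i) (s i))) *
      ∏ i, x4 (s i) (d i) = R c * ∏ i, (if cl (d i) = c i then 1 else 0) := by
    intro c
    have h2 : ∀ i, (if cl (d i) = c i then (1 : ℝ) else 0) =
        ∑ t : Bool, (1 / 2 * ch (c i) t) * x4 t (d i) := by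
      intro i
      rw [Fintype.sum_bool, x4_ch true (hd i), x4_ch false (hd i)]
      unfold ch
      cases cl (d i) <;> cases c i <;> norm_num
    rw [Finset.prod_congr rfl fun i _ => h2 i, Finset.prod_univ_sum, Fintype.piFinset_univ,
      Finset.mul_sum]
    refine Finset.sum_congr rfl fun s _ => ?_
    rw [mul_assoc, ← Finset.prod_mul_distrib]
  rw [Finset.sum_congr rfl fun c _ => h1 c]
  rw [Finset.sum_eq_single (fun i => cl (d i))]
  · simp
  · intro c _ hc
    have : ∃ i, cl (d i) ≠ c i := by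
      by_contra h
      push Not at h
      exact hc (funext fun i => (h i).symm)
    obtain ⟨i, hi⟩ := this
    rw [Finset.prod_eq_zero (Finset.mem_univ i), mul_zero]
    rw [if_neg hi]
  · intro h
    exact absurd (Finset.mem_univ _) h

end signs

section main

variable {ι : Type} [Fintype ι] [DecidableEq ι]
variable {b γ : ι → ℕ → ℝ} {w : ι → ℝ} {L : ι → ι → Bool} {z B : ℕ} {C : ℝ}

/-- the symbols with the free variables separated -/
lemma Sym_split (L : ι → ι → Bool) (F : Finset ι) (e d : ι → ℕ) (he1 : ∀ k ∈ F, e k = 1)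
    (hde : ∀ k, k ∉ F → d k = e k) (t : ι → Bool) (hdo : ∀ i, Odd (d i))
    (hco : ∀ i j, i ≠ j → (d i).Coprime (d j))
    (ht : ∀ i ∈ F, ∀ m : ℕ, Odd m → (∀ b, b ≠ i → m.Coprime (e b)) →
      XX L i e m = Jr m (Pool.Agent.W262.RK.lk L i e) * x4 (t i) m) :
    Pool.Agent.W262.RK.Sym L (fun _ => 1) d =
      (∏ a ∈ Fᶜ, ∏ b ∈ Fᶜ, if L a b then Jr (e a) (e b) else 1) *
      (∏ a ∈ F, Jr (d a) (Pool.Agent.W262.RK.lk L a e) * x4 (t a) (d a)) *
      ∏ a ∈ F, ∏ b ∈ F, (if L a b then Jr (d a) (d b) else 1) := by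
  have hX : ∀ a ∈ F, Jr (d a) (Pool.Agent.W262.RK.lk L a e) * x4 (t a) (d a) =
      ∏ b ∈ Fᶜ, (if L a b then Jr (d a) (d b) else 1) * (if L b a then Jr (d b) (d a) else 1) := by
    intro a ha
    have h1 : ∀ b, b ≠ a → (d a).Coprime (e b) := by
      intro b hb
      by_cases hbF : b ∈ F
      · rw [he1 b hbF]
        exact Nat.coprime_one_right _
      · rw [← hde b hbF]
        exact hco a b hb.symm
    rw [← ht a ha (d a) (hdo a) h1]
    unfold XX
    symm
    have h2 : Fᶜ ⊆ univ.erase a := by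
      intro b hb
      rw [Finset.mem_compl] at hb
      rw [Finset.mem_erase]
      exact ⟨by rintro rfl; exact hb ha, Finset.mem_univ _⟩
    rw [← Finset.prod_subset h2]
    · apply Finset.prod_congr rfl
      intro b hb
      rw [Finset.mem_compl] at hb
      rw [hde b hb]
    · intro b _ hb
      rw [Finset.mem_compl, not_not] at hb
      rw [he1 b hb]
      have e1 : Jr ((d a : ℕ) : ℤ) 1 = 1 := Jr_one_right _
      have e2 : Jr ((1 : ℕ) : ℤ) (d a) = 1 := by
        rw [Nat.cast_one]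
        exact Jr_one_left _
      rw [e1, e2]
      simp
  have h0 : ∏ a, Jr ((fun _ : ι => (1 : ℤ)) a) (d a) = 1 :=
    Finset.prod_eq_one fun a _ => Jr_one_left _
  unfold Pool.Agent.W262.RK.Sym
  rw [h0, mul_one, Finset.prod_congr rfl hX]
  have hs : ∀ g : ι → ℝ, ∏ a, g a = (∏ a ∈ F, g a) * ∏ a ∈ Fᶜ, g a := fun g =>
    (Finset.prod_mul_prod_compl F g).symm
  rw [hs]
  have h3 : ∀ a, ∏ b, (if L a b then Jr (d a) (d b) else 1) =
      (∏ b ∈ F, if L a b then Jr (d a) (d b) else 1) *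
        ∏ b ∈ Fᶜ, if L a b then Jr (d a) (d b) else 1 := fun a => hs _
  rw [Finset.prod_congr rfl fun a _ => h3 a, Finset.prod_congr rfl fun a _ => h3 a,
    Finset.prod_mul_distrib, Finset.prod_mul_distrib]
  have h4 : ∏ a ∈ Fᶜ, ∏ b ∈ F, (if L a b then Jr (d a) (d b) else 1) =
      ∏ a ∈ F, ∏ b ∈ Fᶜ, (if L b a then Jr (d b) (d a) else 1) := Finset.prod_comm
  have h5 : ∏ a ∈ Fᶜ, ∏ b ∈ Fᶜ, (if L a b then Jr (d a) (d b) else 1) =
      ∏ a ∈ Fᶜ, ∏ b ∈ Fᶜ, (if L a b then Jr (e a) (e b) else 1) := by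
    refine Finset.prod_congr rfl fun a ha => Finset.prod_congr rfl fun b hb => ?_
    rw [Finset.mem_compl] at ha hb
    rw [hde a ha, hde b hb]
  have h6 : ∏ a ∈ F, ∏ b ∈ Fᶜ, ((if L a b then Jr (d a) (d b) else 1) *
      (if L b a then Jr (d b) (d a) else 1)) =
      (∏ a ∈ F, ∏ b ∈ Fᶜ, (if L a b then Jr (d a) (d b) else 1)) *
      ∏ a ∈ F, ∏ b ∈ Fᶜ, (if L b a then Jr (d b) (d a) else 1) := by
    rw [← Finset.prod_mul_distrib]
    exact Finset.prod_congr rfl fun a _ => Finset.prod_mul_distrib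
  rw [h4, h5, h6]
  ring

/-- the product over the primes is small -/
lemma prod_bound (hB : Bd b γ w z B C) {g : ℝ} (hg0 : 0 ≤ g)
    (hγ : ∀ i (p : ℕ), p.Prime → z < p → γ i p ≤ g / p)
    (hz : 2 * (Fintype.card ι * g) ≤ z) (hBg : 2 * (Fintype.card ι * g) ≤ B)
    (F : Finset ι) (y : ℕ) (e : ι → ℕ) (he : ∀ k, e k ∈ (PP z y).divisors)
    (E : ι → ℝ) (x : ι → ℕ → ℝ) (hx : ∀ i p, |x i p| ≤ 1)
    (hE : ∀ i ∈ F, ∑ p ∈ PS z y, b i p * x i p ≤ E i) :
    |∏ p ∈ PS z y, (1 + ∑ i, if i ∈ F ∧ ¬ p ∣ ∏ k, e k then b i p * x i p else 0)| ≤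
      Real.exp (∑ i ∈ F, E i) * ∏ k, hq B (e k) := by
  have hz2 := hB.z2
  have hgp : ∀ p ∈ PS z y, ∀ i, |b i p * x i p| ≤ g / p := by
    intro p hp i
    obtain ⟨h1, h2⟩ := mem_PS.1 hp
    rw [abs_mul]
    have h3 := (hB.bγ i p h2 h1.1).trans (hγ i p h2 h1.1)
    calc |b i p| * |x i p| ≤ (g / p) * 1 :=
          mul_le_mul h3 (hx i p) (abs_nonneg _) (by positivity)
      _ = g / p := mul_one _
  have hcard : ∀ p ∈ PS z y, Fintype.card ι * (g / p) ≤ 1 / 2 := by
    intro p hp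
    obtain ⟨h1, h2⟩ := mem_PS.1 hp
    have hp0 : (0 : ℝ) < p := by exact_mod_cast h2.pos
    rw [← mul_div_assoc, div_le_iff₀ hp0]
    have h3 : (z : ℝ) ≤ p := by exact_mod_cast h1.1.le
    linarith
  have hsub : ∀ p ∈ PS z y, ∀ S : Finset ι, |∑ i ∈ S, b i p * x i p| ≤ Fintype.card ι * (g / p) := by
    intro p hp S
    refine (Finset.abs_sum_le_sum_abs _ _).trans ?_
    calc ∑ i ∈ S, |b i p * x i p| ≤ ∑ i ∈ S, g / p := Finset.sum_le_sum fun i _ => hgp p hp i
      _ = S.card * (g / p) := by rw [Finset.sum_const, nsmul_eq_mul]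
      _ ≤ Fintype.card ι * (g / p) := by
        apply mul_le_mul_of_nonneg_right _ (by positivity)
        exact_mod_cast Finset.card_le_univ S
  set P := ∏ k, e k with hP
  have hP0 : P ≠ 0 := Finset.prod_ne_zero_iff.2 fun k _ => dv_ne_zero (he k)
  have hterm : ∀ p ∈ PS z y, ∑ i, (if i ∈ F ∧ ¬ p ∣ P then b i p * x i p else 0) =
      if p ∣ P then 0 else ∑ i ∈ F, b i p * x i p := by
    intro p _
    by_cases hp : p ∣ P
    · rw [if_pos hp]
      exact Finset.sum_eq_zero fun i _ => if_neg fun h => h.2 hp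
    · rw [if_neg hp, ← Finset.sum_filter]
      apply Finset.sum_congr _ fun _ _ => rfl
      ext i
      simp [hp]
  rw [Finset.abs_prod]
  have h1 : ∀ p ∈ PS z y, |1 + ∑ i, (if i ∈ F ∧ ¬ p ∣ P then b i p * x i p else 0)| ≤
      Real.exp (∑ i ∈ F, b i p * x i p) * (if p ∣ P then 1 + (B : ℝ) / p else 1) := by
    intro p hp
    have hs := hsub p hp F
    have hc := hcard p hp
    obtain ⟨h2, h3⟩ := mem_PS.1 hp
    have hp0 : (0 : ℝ) < p := by exact_mod_cast h3.pos
    rw [hterm p hp]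
    by_cases hpP : p ∣ P
    · rw [if_pos hpP, if_pos hpP, add_zero, abs_one]
      set u := Fintype.card ι * (g / (p : ℝ)) with hu
      have hu0 : 0 ≤ u := by positivity
      have h4 : Real.exp (-u) ≤ Real.exp (∑ i ∈ F, b i p * x i p) :=
        Real.exp_le_exp.2 (neg_le_of_abs_le hs)
      have h5 : 1 - u ≤ Real.exp (-u) := by
        have := Real.add_one_le_exp (-u)
        linarith
      have h6 : 2 * u ≤ (B : ℝ) / p := by
        rw [hu, ← mul_div_assoc, ← mul_div_assoc]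
        exact div_le_div_of_nonneg_right hBg hp0.le
      have h7 : 1 ≤ (1 - u) * (1 + 2 * u) := by nlinarith
      calc (1 : ℝ) ≤ (1 - u) * (1 + 2 * u) := h7
        _ ≤ Real.exp (∑ i ∈ F, b i p * x i p) * (1 + (B : ℝ) / p) := by
          apply mul_le_mul (h5.trans h4) (by linarith) (by linarith) (Real.exp_pos _).le
    · rw [if_neg hpP, if_neg hpP, mul_one]
      have h4 := abs_le.1 (hs.trans hc)
      rw [abs_of_nonneg (by linarith)]
      have := Real.add_one_le_exp (∑ i ∈ F, b i p * x i p)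
      linarith
  refine (Finset.prod_le_prod (fun _ _ => abs_nonneg _) h1).trans ?_
  rw [Finset.prod_mul_distrib, ← Real.exp_sum]
  have h2 : ∑ p ∈ PS z y, ∑ i ∈ F, b i p * x i p ≤ ∑ i ∈ F, E i := by
    rw [Finset.sum_comm]
    exact Finset.sum_le_sum hE
  have h3 : ∏ p ∈ PS z y, (if p ∣ P then 1 + (B : ℝ) / p else 1) ≤ ∏ k, hq B (e k) := by
    refine le_trans (le_of_eq ?_) (AT.hq_prod_le B univ e fun k _ => dv_ne_zero (he k))
    unfold AT.hq
    rw [← Finset.prod_filter]
    apply Finset.prod_congr _ fun _ _ => rfl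
    ext p
    rw [Finset.mem_filter, Nat.mem_primeFactors]
    constructor
    · rintro ⟨h4, h5⟩
      exact ⟨(mem_PS.1 h4).2, h5, hP0⟩
    · rintro ⟨h4, h5, -⟩
      refine ⟨?_, h5⟩
      obtain ⟨k, _, hk⟩ := (h4.prime.dvd_finsetProd_iff _).1 h5
      exact (prime_dvd_PP h4).1 (hk.trans (Nat.dvd_of_mem_divisors (he k)))
  have h4 : 0 ≤ ∏ p ∈ PS z y, (if p ∣ P then 1 + (B : ℝ) / p else 1) := by
    apply Finset.prod_nonneg
    intro p _
    split_ifs <;> positivity
  exact mul_le_mul (Real.exp_le_exp.2 h2) h3 h4 (Real.exp_pos _).le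

lemma x4_prod (u : Bool) {m : ℕ} (hm : Squarefree m) :
    x4 u m = ∏ p ∈ m.primeFactors, x4 u p := by
  have h1 : ∀ s : Finset ℕ, x4 u (∏ p ∈ s, p) = ∏ p ∈ s, x4 u p := by
    intro s
    unfold x4
    cases u
    · simp
    · simp only [if_true]
      push_cast
      rw [map_prod]
      push_cast
      rfl
  rw [← h1, Nat.prod_primeFactors_of_squarefree hm]

lemma Jr_prod (l : ℕ) {m : ℕ} (hm : Squarefree m) :
    Jr (m : ℤ) l = ∏ p ∈ m.primeFactors, Jr (p : ℤ) l := by
  rw [← Pool.Agent.W108.RK.Jr_prod_left]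
  have h1 : (m : ℤ) = ∏ p ∈ m.primeFactors, (p : ℤ) := by
    conv_lhs => rw [← Nat.prod_primeFactors_of_squarefree hm]
    push_cast
    rfl
  rw [← h1]

lemma gm_mul (f : ℕ → ℝ) (l : ℕ) (u : Bool) {m : ℕ} (hm : Squarefree m) :
    gm f m * (Jr (m : ℤ) l * x4 u m) = gm (fun p => f p * (Jr (p : ℤ) l * x4 u p)) m := by
  unfold AT.gm
  rw [x4_prod u hm, Jr_prod l hm, ← Finset.prod_mul_distrib, ← Finset.prod_mul_distrib]

end main

open Classical in
/-- **StFree** -/
theorem stFree : StFree := by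
  intro ι _ _ b γ w L z B C g hB hg0 hγ hz hBg hL F hF y e hzy he he1 E hE
  set T : ι → Finset ℕ := fun k => if k ∈ F then (PP z y).divisors else {e k} with hT
  have hz2 := hB.z2
  have hTd : ∀ d ∈ Fintype.piFinset T, (∀ k, d k ∈ (PP z y).divisors) ∧ ∀ k, k ∉ F → d k = e k := by
    intro d hd
    rw [Fintype.mem_piFinset] at hd
    constructor
    · intro k
      have := hd k
      by_cases hk : k ∈ F
      · simpa [hT, hk] using this
      · simp only [hT, if_neg hk, Finset.mem_singleton] at this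
        rw [this]
        exact he k
    · intro k hk
      have := hd k
      simpa [hT, hk] using this
  have hprod0 : 0 ≤ ∏ k, (gm (γ k) (e k) * hq B (e k)) :=
    Finset.prod_nonneg fun k _ => mul_nonneg (AT.gγ_nonneg hB k (he k)) (AT.hq_nonneg _ _)
  have hRHS : 0 ≤ 2 ^ (Fintype.card ι) * Real.exp (∑ i ∈ F, E i) *
      ∏ k, (gm (γ k) (e k) * hq B (e k)) := by positivity
  by_cases hc : ∀ k l, k ≠ l → (e k).Coprime (e l)
  swap
  · rw [Finset.sum_eq_zero, abs_zero]
    · exact hRHS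
    · intro d hd
      obtain ⟨hd1, hd2⟩ := hTd d hd
      unfold Pool.Agent.L7h19.RP.AT.HH
      rw [if_neg]
      intro h
      apply hc
      intro k l hkl
      by_cases hk : k ∈ F
      · rw [he1 k hk]
        exact Nat.coprime_one_left _
      · by_cases hl : l ∈ F
        · rw [he1 l hl]
          exact Nat.coprime_one_right _
        · rw [← hd2 k hk, ← hd2 l hl]
          exact h k l hkl
  -- the main case
  have heo : ∀ k, Odd (e k) := fun k => dv_odd hz2 (he k)
  choose t ht using fun i => XX_char L i e heo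
  obtain ⟨R, hR1, hR2⟩ := sign_fun L hL F hF
  have hsq : Squarefree (∏ k, e k) :=
    Pool.Agent.W262.RK.AT.squarefree_prod univ e (fun k _ => dv_squarefree (he k))
      (fun a _ c _ hac => hc a c hac)
  set c0 : ℝ := ∏ a ∈ Fᶜ, ∏ b ∈ Fᶜ, if L a b then Jr (e a) (e b) else 1 with hc0
  have hc0' : |c0| ≤ 1 := by
    apply abs_prod_le_one
    intro a _
    apply abs_prod_le_one
    intro b _
    exact abs_ite_Jr _ _ _
  set g0 : ℝ := ∏ i ∈ Fᶜ, gm (b i) (e i) with hg0d
  set x : (ι → Bool) → ι → ℕ → ℝ := fun s i p =>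
    Jr (p : ℤ) (Pool.Agent.W262.RK.lk L i e) * x4 (xor (t i) (s i)) p with hx
  have hterm : ∀ d ∈ (Fintype.piFinset T).filter (fun d => ∀ i j, i ≠ j → (d i).Coprime (d j)),
      (∏ i, gm (b i) (d i)) * Pool.Agent.W262.RK.Sym L (fun _ => 1) d =
      ∑ c : ι → Bool, ∑ s : ι → Bool, (g0 * c0 * (R c * ∏ i, (1 / 2 * ch (c i) (s i))) *
        ∏ i ∈ Fᶜ, x4 (s i) (e i)) * ∏ i ∈ F, gm (fun p => b i p * x s i p) (d i) := by
    intro d hd
    rw [Finset.mem_filter] at hd
    obtain ⟨hd1, hd2⟩ := hTd d hd.1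
    have hdo : ∀ i, Odd (d i) := fun i => dv_odd hz2 (hd1 i)
    have hds : ∀ i, Squarefree (d i) := fun i => dv_squarefree (hd1 i)
    rw [Sym_split L F e d he1 hd2 t hdo hd.2 (fun i _ => ht i), hR2 d hdo hd.2, fourier R d hdo,
      Finset.mul_sum, Finset.mul_sum]
    refine Finset.sum_congr rfl fun c _ => ?_
    rw [Finset.mul_sum, Finset.mul_sum]
    refine Finset.sum_congr rfl fun s _ => ?_
    have h1 : ∏ i, gm (b i) (d i) = (∏ i ∈ F, gm (b i) (d i)) * g0 := by
      rw [← Finset.prod_mul_prod_compl F, hg0d]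
      congr 1
      refine Finset.prod_congr rfl fun i hi => ?_
      rw [hd2 i (Finset.mem_compl.1 hi)]
    have h2 : ∏ i, x4 (s i) (d i) = (∏ i ∈ F, x4 (s i) (d i)) * ∏ i ∈ Fᶜ, x4 (s i) (e i) := by
      rw [← Finset.prod_mul_prod_compl F]
      congr 1
      refine Finset.prod_congr rfl fun i hi => ?_
      rw [hd2 i (Finset.mem_compl.1 hi)]
    have h3 : ∏ i ∈ F, gm (fun p => b i p * x s i p) (d i) =
        (∏ i ∈ F, gm (b i) (d i)) * ((∏ i ∈ F, Jr (d i) (Pool.Agent.W262.RK.lk L i e) *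
          x4 (t i) (d i)) * ∏ i ∈ F, x4 (s i) (d i)) := by
      rw [← Finset.prod_mul_distrib, ← Finset.prod_mul_distrib]
      refine Finset.prod_congr rfl fun i _ => ?_
      rw [mul_assoc (Jr _ _), x4_mul (hdo i), gm_mul _ _ _ (hds i)]
    rw [h1, h2, h3]
    ring
  have hsum : ∑ d ∈ Fintype.piFinset T, HH b L (fun _ => 1) d =
      ∑ c : ι → Bool, ∑ s : ι → Bool, (g0 * c0 * (R c * ∏ i, (1 / 2 * ch (c i) (s i))) *
        ∏ i ∈ Fᶜ, x4 (s i) (e i)) *
        ∏ p ∈ PS z y, (1 + ∑ i, if i ∈ F ∧ ¬ p ∣ ∏ k, e k then b i p * x s i p else 0) := by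
    have h1 : ∑ d ∈ Fintype.piFinset T, HH b L (fun _ => 1) d =
        ∑ d ∈ (Fintype.piFinset T).filter (fun d => ∀ i j, i ≠ j → (d i).Coprime (d j)),
          (∏ i, gm (b i) (d i)) * Pool.Agent.W262.RK.Sym L (fun _ => 1) d := by
      rw [Finset.sum_filter]
      rfl
    rw [h1, Finset.sum_congr rfl hterm, Finset.sum_comm]
    refine Finset.sum_congr rfl fun c _ => ?_
    rw [Finset.sum_comm]
    refine Finset.sum_congr rfl fun s _ => ?_
    rw [← Finset.mul_sum]
    congr 1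
    exact free_prod hz2 (fun i p => b i p * x s i p) F e he he1 hc
  rw [hsum]
  have hxle : ∀ s i p, |x s i p| ≤ 1 := by
    intro s i p
    rw [hx]
    simp only
    rw [abs_mul]
    exact mul_le_one₀ (abs_Jr_le _ _) (abs_nonneg _) (abs_x4_le _ _)
  have hPb : ∀ s : ι → Bool,
      |∏ p ∈ PS z y, (1 + ∑ i, if i ∈ F ∧ ¬ p ∣ ∏ k, e k then b i p * x s i p else 0)| ≤
        Real.exp (∑ i ∈ F, E i) * ∏ k, hq B (e k) := fun s =>
    prod_bound hB hg0 hγ hz hBg F y e he E (x s) (hxle s)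
      fun i hi => hE hsq i hi (xor (t i) (s i))
  have hg0b : |g0| ≤ ∏ k, gm (γ k) (e k) := by
    have h1 : ∏ k, gm (γ k) (e k) = ∏ k ∈ Fᶜ, gm (γ k) (e k) := by
      rw [← Finset.prod_mul_prod_compl F]
      rw [Finset.prod_eq_one, one_mul]
      intro i hi
      rw [he1 i hi, AT.gm_one]
    rw [h1, hg0d, Finset.abs_prod]
    exact Finset.prod_le_prod (fun _ _ => abs_nonneg _) fun k _ => AT.abs_gb_le hB k (he k)
  have hG0 : 0 ≤ ∏ k, gm (γ k) (e k) := (abs_nonneg _).trans hg0b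
  set Q := Real.exp (∑ i ∈ F, E i) * ∏ k, hq B (e k) with hQ
  have hQ0 : 0 ≤ Q := mul_nonneg (Real.exp_pos _).le
    (Finset.prod_nonneg fun k _ => AT.hq_nonneg _ _)
  have hcs : ∀ c s : ι → Bool, |(g0 * c0 * (R c * ∏ i, (1 / 2 * ch (c i) (s i))) *
        ∏ i ∈ Fᶜ, x4 (s i) (e i)) *
        ∏ p ∈ PS z y, (1 + ∑ i, if i ∈ F ∧ ¬ p ∣ ∏ k, e k then b i p * x s i p else 0)| ≤
      ((∏ k, gm (γ k) (e k)) * (1 / 2) ^ Fintype.card ι) * Q := by
    intro c s
    rw [abs_mul]
    apply mul_le_mul _ (hPb s) (abs_nonneg _) (by positivity)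
    rw [abs_mul, abs_mul, abs_mul, abs_mul]
    have h1 : |∏ i, (1 / 2 * ch (c i) (s i))| ≤ (1 / 2) ^ Fintype.card ι := by
      rw [Finset.abs_prod, ← Finset.card_univ, ← Finset.prod_const]
      refine Finset.prod_le_prod (fun _ _ => abs_nonneg _) fun i _ => ?_
      rw [abs_mul]
      have := abs_ch (c i) (s i)
      rw [abs_of_pos (by norm_num : (0 : ℝ) < 1 / 2)]
      linarith
    have h2 : |∏ i ∈ Fᶜ, x4 (s i) (e i)| ≤ 1 := abs_prod_le_one _ _ fun i _ => abs_x4_le _ _
    calc |g0| * |c0| * (|R c| * |∏ i, (1 / 2 * ch (c i) (s i))|) * |∏ i ∈ Fᶜ, x4 (s i) (e i)|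
        ≤ (∏ k, gm (γ k) (e k)) * 1 * (1 * (1 / 2) ^ Fintype.card ι) * 1 := by
          have := hR1 c
          gcongr
      _ = _ := by ring
  refine (Finset.abs_sum_le_sum_abs _ _).trans ?_
  refine (Finset.sum_le_sum fun c _ => (Finset.abs_sum_le_sum_abs _ _).trans
    (Finset.sum_le_sum fun s _ => hcs c s)).trans ?_
  rw [Finset.sum_const, Finset.sum_const, Finset.card_univ, nsmul_eq_mul, nsmul_eq_mul,
    Fintype.card_fun, Fintype.card_bool, Finset.prod_mul_distrib]
  push_cast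
  apply le_of_eq
  have h2 : (2 : ℝ) ^ Fintype.card ι * (1 / 2) ^ Fintype.card ι = 1 := by
    rw [← mul_pow]
    norm_num
  calc (2 : ℝ) ^ Fintype.card ι * (2 ^ Fintype.card ι *
        (((∏ k, gm (γ k) (e k)) * (1 / 2) ^ Fintype.card ι) * Q))
      = 2 ^ Fintype.card ι * (2 ^ Fintype.card ι * (1 / 2) ^ Fintype.card ι) *
        ((∏ k, gm (γ k) (e k)) * Q) := by ring
    _ = _ := by rw [h2, hQ]; ring

end Pool.Agent.L7h23.RP
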